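import Mathlib
import Pool.Agent.Helper74.SSQ.Main

set_option autoImplicit false

namespace Pool.Agent.Results.MP_93ce36_al.NearTwiceEmbedding

open Pool.Agent.Helper74.SSQ

/-- Every partial semisymmetric quasigroup of order `n` (given by a partial binary operation
`P` on `Fin n`) embeds in a semisymmetric quasigroup of every order `t` with
`i * t ≥ (2 * i + 1) * n + 5 * i ^ 4`, for every `i ≥ 2`, that is `t ≥ (2 + 1 / i) n + 5 i ^ 3`. -/
theorem result :
    ∀ i : ℕ, 2 ≤ i →
    ∀ (n : ℕ) (P : Fin n → Fin n → Option (Fin n)),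
      (∀ a b b' c, P a b = some c → P a b' = some c → b = b') →
      (∀ a a' b c, P a b = some c → P a' b = some c → a = a') →
      (∀ x y z, P y x = some z → P x z = some y) →
      ∀ t : ℕ, (2 * i + 1) * n + 5 * i ^ 4 ≤ i * t →
        ∃ (f : Fin t → Fin t → Fin t) (φ : Fin n → Fin t),
          (∀ a, Function.Bijective (f a)) ∧
          (∀ b, Function.Bijective (fun a => f a b)) ∧
          (∀ x y, f x (f y x) = y) ∧
          Function.Injective φ ∧
          ∀ a b c, P a b = some c → f (φ a) (φ b) = φ c := by
  intro i hi n P _ _ hP t ht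
  obtain ⟨W, hW, T, hcyc, huniq, hcard, ι, hι, hT⟩ := embeds_main
    (fun a b c => P a b = some c) ⟨fun x y z h => hP _ _ _ h, fun x y z z' h h' => by
      rw [h] at h'; exact Option.some.inj h'⟩ i t hi (by rw [Fintype.card_fin]; exact ht)
  let e : W ≃ Fin t := Fintype.equivFinOfCardEq hcard
  choose m hm hmu using huniq
  -- `m x y` is the unique `z` with `T x y z`
  have hm1 : ∀ x y, m x (m y x) = y := fun x y =>
    (hmu x (m y x) y (hcyc _ _ _ (hm y x))).symm
  have hinjl : ∀ a, Function.Injective (m a) := by
    intro a b b' h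
    have h1 := hcyc _ _ _ (hcyc _ _ _ (hm a b))
    have h2 := hcyc _ _ _ (hcyc _ _ _ (hm a b'))
    rw [h] at h1
    exact (hmu _ _ b h1).trans (hmu _ _ b' h2).symm
  have hinjr : ∀ b, Function.Injective (fun a => m a b) := by
    intro b a a' h
    simp only at h
    rw [← hm1 b a, h, hm1 b a']
  refine ⟨fun a b => e (m (e.symm a) (e.symm b)), fun a => e (ι a), ?_, ?_, ?_, ?_, ?_⟩
  · intro a
    apply Finite.injective_iff_bijective.1
    intro b b' h
    exact e.symm.injective (hinjl _ (e.injective h))
  · intro b
    apply Finite.injective_iff_bijective.1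
    intro a a' h
    exact e.symm.injective (hinjr (e.symm b) (e.injective h))
  · intro x y
    simp only [Equiv.symm_apply_apply]
    rw [hm1]
    simp
  · exact e.injective.comp hι
  · intro a b c h
    simp only [Equiv.symm_apply_apply]
    rw [← hmu _ _ _ (hT _ _ _ h)]

end Pool.Agent.Results.MP_93ce36_al.NearTwiceEmbedding
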